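import Pool.Agent.H63.VI.Final

set_option autoImplicit false
set_option linter.unusedSectionVars false

/-! # The orders of the poles and of the roots, for general members -/

namespace Pool.Agent.H63.VJ

open Pool.Agent.H628R4.TP Polynomial Pool.Agent.H63.VI

variable {n : ℕ} {ρ J : Type} [Fintype ρ] [Fintype J]
    (P : MvPolynomial (Fin n) ℂ) (g : ρ → MvPolynomial (Fin n) ℂ) (m : ℕ) (hm : 3 ≤ m)
    (k a' a : J → ℕ) (hN : ∀ i, 1 ≤ a' i + m * a i)

include hN in
theorem ord_bound (G : MvPolynomial ρ ℂ) (b : ℂ[X])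
    (hb : IsBFunction (P * MvPolynomial.aeval g G) b)
    (key : ∀ (T : Finset J) (α : ℚ), T.Nonempty →
      (∀ i ∈ T, ((k i : ℚ) + 1) = α * (a' i + m * a i : ℕ)) →
      ((∃ x e w, IsChart P g k a' a T x e w ∧ Immersion w Set.univ) →
        (X - C (-(α : ℂ))) ^ exm n T.card α ∣ b) ∧
      ((∃ x e w i, IsChart P g k a' a T x e w ∧ T = {i} ∧ Immersion w {t | t ≠ e i}) →
        (X - C (-(α : ℂ))) ^ 1 ∣ b))
    (χ χ' : Finset J → ℤ) (hχ : ∀ S, χ' S ≠ 0 → S.card < n)
    (H : Covered P g m k a' a χ χ') (hdeg : (P * MvPolynomial.aeval g G).totalDegree ≠ 0)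
    (hb0 : b ≠ 0) (z : ℂ) :
    (∀ S, (χ S ≠ 0 ∨ χ' S ≠ 0) →
        ordS (fun i => a' i + m * a i) k χ' z S ≤ b.rootMultiplicity z) ∨
      ∃ q : ℕ, 2 ≤ q ∧ z = -(q : ℂ) ∧
        (∀ S, (χ S ≠ 0 ∨ χ' S ≠ 0) → ordS (fun i => a' i + m * a i) k χ' z S ≤ n) ∧
        n ≤ b.rootMultiplicity z + 1 := by
  classical
  -- the root `-1`
  have hm1 : 1 ≤ b.rootMultiplicity (-1) := by
    have h0 : P * MvPolynomial.aeval g G ≠ 0 := by
      intro h
      rw [h, MvPolynomial.totalDegree_zero] at hdeg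
      exact hdeg rfl
    have h1 : ¬ P * MvPolynomial.aeval g G ∣ 1 := by
      rintro ⟨q, hq⟩
      have hq0 : q ≠ 0 := by
        rintro rfl
        rw [mul_zero] at hq
        exact one_ne_zero hq
      have h2 := congrArg MvPolynomial.totalDegree hq
      rw [MvPolynomial.totalDegree_one, MvPolynomial.totalDegree_mul_of_isDomain h0 hq0] at h2
      omega
    obtain ⟨D, hD⟩ := hb
    have h2 := Pool.Agent.W574.HS.minus_one (P * MvPolynomial.aeval g G) 1 h0 h1 b D fun s => by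
      rw [one_mul]
      exact hD s
    exact (rootMultiplicity_pos hb0).2 h2
  by_cases hall : ∀ S, (χ S ≠ 0 ∨ χ' S ≠ 0) →
      ordS (fun i => a' i + m * a i) k χ' z S ≤ b.rootMultiplicity z
  · exact Or.inl hall
  push Not at hall
  obtain ⟨S, hS, hlt⟩ := hall
  -- the sets `T`
  have hTdef : ∀ (S' : Finset J) (α : ℚ), z = -(α : ℂ) → ∀ i,
      i ∈ S'.filter (fun i => ((a' i + m * a i : ℕ) : ℂ) * z + (k i + 1 : ℕ) = 0) ↔
      i ∈ S' ∧ (k i : ℚ) + 1 = α * (a' i + m * a i : ℕ) := by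
    intro S' α hα i
    rw [Finset.mem_filter]
    refine and_congr_right fun _ => ?_
    rw [hα]
    constructor
    · intro h
      have h1 : ((k i : ℂ) + 1) = (α : ℂ) * ((a' i + m * a i : ℕ) : ℂ) := by
        push_cast at h ⊢
        linear_combination h
      exact_mod_cast h1
    · intro h
      have h1 : ((k i : ℂ) + 1) = (α : ℂ) * ((a' i + m * a i : ℕ) : ℂ) := by exact_mod_cast h
      push_cast at h1 ⊢
      linear_combination h1
  obtain ⟨T, hTd⟩ : ∃ T, T = S.filter (fun i => ((a' i + m * a i : ℕ) : ℂ) * z +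
    (k i + 1 : ℕ) = 0) := ⟨_, rfl⟩
  have hord : ordS (fun i => a' i + m * a i) k χ' z S =
      (if z = -1 ∧ χ' S ≠ 0 then 1 else 0) + T.card := by
    rw [ordS, hTd]
  rw [hord] at hlt
  rcases Finset.eq_empty_or_nonempty T with hT0 | hTne
  · rw [hT0, Finset.card_empty, add_zero] at hlt
    exfalso
    split_ifs at hlt with h
    · rw [h.1] at hlt
      omega
    · omega
  obtain ⟨i0, hi0⟩ := hTne
  -- the value of `z`
  obtain ⟨α, hαz⟩ : ∃ α : ℚ, z = -(α : ℂ) := by
    rw [hTd] at hi0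
    have h1 := (Finset.mem_filter.1 hi0).2
    have h2 : ((a' i0 + m * a i0 : ℕ) : ℂ) ≠ 0 := Nat.cast_ne_zero.2 (by have := hN i0; omega)
    refine ⟨(k i0 + 1 : ℕ) / (a' i0 + m * a i0 : ℕ), ?_⟩
    rw [Rat.cast_div, Rat.cast_natCast, Rat.cast_natCast, eq_comm, neg_eq_iff_eq_neg,
      div_eq_iff h2]
    linear_combination h1
  have hTT := hTdef S α hαz
  rw [← hTd] at hTT
  have hα : ∀ i ∈ T, ((k i : ℚ) + 1) = α * (a' i + m * a i : ℕ) := fun i hi => ((hTT i).1 hi).2
  have hTne : T.Nonempty := ⟨i0, hi0⟩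
  obtain ⟨x, e, w, hc, hw⟩ := H S hS T hTne α hTT
  have hz1 : z = -1 ↔ α = 1 := by
    rw [hαz, neg_inj]
    exact_mod_cast Iff.rfl
  rcases hw with hw | ⟨hα1, i, hTi, hw⟩
  · have h1 := (key T α hTne hα).1 ⟨x, e, w, hc, hw⟩
    rw [← hαz, ← le_rootMultiplicity_iff hb0] at h1
    unfold exm at h1
    by_cases hcn : T.card = n
    · rw [if_pos hcn] at h1
      have hTS : T ⊆ S := fun i hi => ((hTT i).1 hi).1
      have hχS : χ' S = 0 := by
        by_contra h
        have h2 := hχ S h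
        have h3 := Finset.card_le_card hTS
        omega
      rw [if_neg (fun h => h.2 hχS), zero_add] at hlt
      by_cases hq : ∃ q : ℕ, 2 ≤ q ∧ α = q
      · rw [if_pos hq] at h1
        obtain ⟨q, hq2, hq⟩ := hq
        have hzq : z = -(q : ℂ) := by rw [hαz, hq, Rat.cast_natCast]
        refine Or.inr ⟨q, hq2, hzq, fun S' hS' => ?_, by omega⟩
        have hz1' : ¬ (z = -1 ∧ χ' S' ≠ 0) := by
          rintro ⟨h, -⟩
          rw [hz1, hq] at h
          have : q = 1 := by exact_mod_cast h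
          omega
        rw [ordS, if_neg hz1', zero_add]
        have hTT' := hTdef S' α hαz
        obtain ⟨T', hTd'⟩ : ∃ T, T = S'.filter (fun i => ((a' i + m * a i : ℕ) : ℂ) * z +
          (k i + 1 : ℕ) = 0) := ⟨_, rfl⟩
        rw [← hTd'] at hTT' ⊢
        rcases Finset.eq_empty_or_nonempty T' with hT0 | hTne'
        · rw [hT0, Finset.card_empty]; omega
        · obtain ⟨x', e', w', hc', -⟩ := H S' hS' T' hTne' α hTT'
          rw [← Finset.card_image_of_injOn hc'.inj]
          exact (Finset.card_le_univ _).trans (Fintype.card_fin n).le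
      · rw [if_neg hq] at h1
        omega
    · rw [if_neg hcn] at h1
      by_cases h1α : α = 1
      · rw [if_pos h1α] at h1
        exfalso
        have : (if z = -1 ∧ χ' S ≠ 0 then 1 else 0) ≤ 1 := by split_ifs <;> omega
        omega
      · rw [if_neg h1α] at h1
        rw [if_neg (fun h => h1α (hz1.1 h.1))] at hlt
        omega
  · have h1 := (key T α hTne hα).2 ⟨x, e, w, i, hc, hTi, hw⟩
    rw [← hαz, ← le_rootMultiplicity_iff hb0] at h1
    rw [if_neg (fun h => hα1 (hz1.1 h.1)), hTi, Finset.card_singleton] at hlt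
    omega

end Pool.Agent.H63.VJ
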