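import Pool.Agent.H63.VJ.Ord

set_option autoImplicit false
set_option linter.unusedSectionVars false

/-! # The twisted topological zeta functions of general members -/

namespace Pool.Agent.H63.VJ

open Pool.Agent.H628R4.TP Polynomial Pool.Agent.H63.VI

/-- the Euler characteristics which contribute to `Z^(e)` -/
def chiE {J : Type} (e : ℕ) (N : J → ℕ) (χ : Finset J → ℤ) (S : Finset J) : ℤ :=
  open Classical in if S.Nonempty ∧ ∀ i ∈ S, e ∣ N i then χ S else 0

/-- the Euler characteristics which contribute to `Z^(e)`, on the strict transform -/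
def chiE' {J : Type} (e : ℕ) (χ' : Finset J → ℤ) (S : Finset J) : ℤ :=
  if e = 1 then χ' S else 0

/-- The twisted topological zeta function `Z^(e)`, for divisors `E i` (`i ∈ J`) with the numerical
data `N i`, `ν i` and a divisor `F` with the numerical data `1`, `1`: the sum over the nonempty sets
`I` of these divisors such that `e` divides all the multiplicities of the divisors in `I`. Here `S`
is the set of the `i` with `E i ∈ I`, `χ S` is the Euler characteristic of `E_S° \ F` and `χ' S` the
one of `E_S° ∩ F`. -/
noncomputable def twisted {J : Type} [Fintype J] (e : ℕ) (N ν : J → ℕ) (χ χ' : Finset J → ℤ) :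
    RatFunc ℂ :=
  open Classical in
  ∑ S : Finset J with ∀ i ∈ S, e ∣ N i,
    ((if S.Nonempty then (χ S : RatFunc ℂ) else 0) +
      (if e = 1 then (χ' S : RatFunc ℂ) * (RatFunc.X + 1)⁻¹ else 0)) *
    ∏ i ∈ S, ((N i : RatFunc ℂ) * RatFunc.X + (ν i : RatFunc ℂ))⁻¹

theorem twisted_eq {J : Type} [Fintype J] (e : ℕ) (N ν : J → ℕ) (χ χ' : Finset J → ℤ) :
    twisted e N ν χ χ' = zeta N ν (chiE e N χ) (chiE' e χ') := by
  classical
  unfold twisted zeta
  rw [Finset.sum_filter]
  refine Finset.sum_congr rfl fun S _ => ?_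
  by_cases h : ∀ i ∈ S, e ∣ N i
  · rw [if_pos h]
    have h1 : chiE e N χ S = if S.Nonempty then χ S else 0 := by
      unfold chiE
      by_cases hS : S.Nonempty
      · rw [if_pos hS, if_pos ⟨hS, h⟩]
      · rw [if_neg hS, if_neg fun h' => hS h'.1]
    rw [h1, chiE']
    by_cases hS : S.Nonempty <;> by_cases he : e = 1 <;> simp [hS, he]
  · have he : e ≠ 1 := by
      rintro rfl
      exact h fun i _ => one_dvd _
    rw [if_neg h, chiE, chiE', if_neg (fun h' => h h'.2), if_neg he]
    simp

end Pool.Agent.H63.VJ
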